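import Mathlib

set_option autoImplicit false

namespace Pool.Agent.Results.MP_c2fecd_an.StrictlyConvex

open scoped NNReal ENNReal

/-! ### The spaces `Lip₀(M)` and `F(M)` -/

/-- Real Lipschitz functions on `M` vanishing at the base point `o`, as a linear subspace of
`M → ℝ`. -/
def lipSubmodule (M : Type*) [MetricSpace M] (o : M) : Submodule ℝ (M → ℝ) where
  carrier := {f | f o = 0 ∧ ∃ K : ℝ≥0, LipschitzWith K f}
  zero_mem' := ⟨rfl, 0, LipschitzWith.const 0⟩
  add_mem' := by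
    rintro f g ⟨hf, K, hK⟩ ⟨hg, L, hL⟩
    exact ⟨by simp [hf, hg], K + L, hK.add hL⟩
  smul_mem' := by
    rintro c f ⟨hf, K, hK⟩
    refine ⟨by simp [hf], ‖c‖₊ * K, ?_⟩
    exact (lipschitzWith_smul c).comp hK

/-- `Lip₀(M)`. -/
def Lip0 (M : Type*) [MetricSpace M] (o : M) : Type _ := lipSubmodule M o

variable {M : Type*} [MetricSpace M] {o : M}

instance : AddCommGroup (Lip0 M o) := Submodule.addCommGroup (lipSubmodule M o)
instance : Module ℝ (Lip0 M o) := Submodule.module (lipSubmodule M o)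
instance : CoeFun (Lip0 M o) fun _ => M → ℝ := ⟨fun f => f.1⟩

/-- The norm of `Lip₀(M)` is the best Lipschitz constant `sup |f x - f y| / d(x,y)`. -/
noncomputable instance : Norm (Lip0 M o) :=
  ⟨fun f => ⨆ p : M × M, |f p.1 - f p.2| / dist p.1 p.2⟩

lemma norm_def (f : Lip0 M o) : ‖f‖ = ⨆ p : M × M, |f p.1 - f p.2| / dist p.1 p.2 := rfl

lemma bdd (f : Lip0 M o) : BddAbove (Set.range fun p : M × M => |f p.1 - f p.2| / dist p.1 p.2) := by
  obtain ⟨-, K, hK⟩ := f.2
  refine ⟨K, ?_⟩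
  rintro _ ⟨p, rfl⟩
  have h := hK.dist_le_mul p.1 p.2
  rw [Real.dist_eq] at h
  exact div_le_of_le_mul₀ dist_nonneg K.2 h

lemma le_norm (f : Lip0 M o) (x y : M) : |f x - f y| ≤ ‖f‖ * dist x y := by
  rcases eq_or_ne x y with rfl | hxy
  · simp
  · have hd : 0 < dist x y := dist_pos.mpr hxy
    have h := le_ciSup (bdd f) (x, y)
    rw [← norm_def] at h
    rwa [div_le_iff₀ hd] at h

lemma norm_nonneg' (f : Lip0 M o) : 0 ≤ ‖f‖ := by
  rw [norm_def]
  exact Real.iSup_nonneg fun p => by positivity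

lemma norm_le_of (f : Lip0 M o) (C : ℝ) (hC : 0 ≤ C) (h : ∀ x y, |f x - f y| ≤ C * dist x y) :
    ‖f‖ ≤ C := by
  have : Nonempty (M × M) := ⟨(o, o)⟩
  rw [norm_def]
  refine ciSup_le fun p => ?_
  exact div_le_of_le_mul₀ dist_nonneg hC (h p.1 p.2)

lemma coe_add (f g : Lip0 M o) (x : M) : (f + g) x = f x + g x := rfl
lemma coe_smul (c : ℝ) (f : Lip0 M o) (x : M) : (c • f) x = c * f x := rfl
lemma coe_base (f : Lip0 M o) : f o = 0 := f.2.1

lemma core : NormedSpace.Core ℝ (Lip0 M o) where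
  norm_nonneg := norm_nonneg'
  norm_smul c f := by
    apply le_antisymm
    · apply norm_le_of _ _ (mul_nonneg (norm_nonneg _) (norm_nonneg' f))
      intro x y
      rw [coe_smul, coe_smul, ← mul_sub, abs_mul, mul_assoc]
      exact mul_le_mul_of_nonneg_left (le_norm f x y) (abs_nonneg c)
    · rcases eq_or_ne c 0 with rfl | hc
      · rw [norm_zero, zero_mul]; exact norm_nonneg' _
      · have h : ‖f‖ ≤ ‖c • f‖ / ‖c‖ := by
          apply norm_le_of _ _ (div_nonneg (norm_nonneg' _) (norm_nonneg _))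
          intro x y
          have h1 := le_norm (c • f) x y
          rw [coe_smul, coe_smul, ← mul_sub, abs_mul] at h1
          have hc' : 0 < ‖c‖ := norm_pos_iff.mpr hc
          rw [div_mul_eq_mul_div, le_div_iff₀ hc']
          rw [Real.norm_eq_abs]; linarith
        have hc' : 0 < ‖c‖ := norm_pos_iff.mpr hc
        rw [le_div_iff₀ hc'] at h
        linarith
  norm_triangle f g := by
    apply norm_le_of _ _ (add_nonneg (norm_nonneg' f) (norm_nonneg' g))
    intro x y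
    have h1 := le_norm f x y
    have h2 := le_norm g x y
    rw [coe_add, coe_add]
    calc |f x + g x - (f y + g y)| = |(f x - f y) + (g x - g y)| := by ring_nf
      _ ≤ |f x - f y| + |g x - g y| := abs_add_le _ _
      _ ≤ (‖f‖ + ‖g‖) * dist x y := by linarith
  norm_eq_zero_iff f := by
    constructor
    · intro h
      apply Subtype.ext
      funext x
      have h1 := le_norm f x o
      rw [h, zero_mul, coe_base, sub_zero] at h1
      exact abs_nonpos_iff.mp h1
    · rintro rfl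
      apply le_antisymm _ (norm_nonneg' _)
      apply norm_le_of _ _ le_rfl
      intro x y
      change |(0 : ℝ) - 0| ≤ _
      simp

noncomputable instance : NormedAddCommGroup (Lip0 M o) := NormedAddCommGroup.ofCore core
noncomputable instance : NormedSpace ℝ (Lip0 M o) := NormedSpace.ofCore core

/-- Evaluation at `x`, as an element of the dual of `Lip₀(M)`. -/
noncomputable def delta (o : M) (x : M) : Lip0 M o →L[ℝ] ℝ :=
  LinearMap.mkContinuous
    { toFun := fun f => f x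
      map_add' := fun _ _ => rfl
      map_smul' := fun _ _ => rfl } (dist x o) (by
    intro f
    have h := le_norm f x o
    rw [coe_base, sub_zero] at h
    rw [mul_comm]
    exact h)

lemma delta_apply (x : M) (f : Lip0 M o) : delta o x f = f x := rfl

/-- The Lipschitz-free space `F(M)`: the norm-closed linear span of the evaluations in the
dual of `Lip₀(M)`. -/
noncomputable def FreeSpace (M : Type*) [MetricSpace M] (o : M) :
    Submodule ℝ (Lip0 M o →L[ℝ] ℝ) :=
  (Submodule.span ℝ (Set.range (delta o))).topologicalClosure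

/-- `Z` admits an equivalent strictly convex norm: there is a seminorm `N` on `Z`, bounded above
and below by multiples of the given norm (hence an equivalent norm), such that
`N x = N y = N ((x + y) / 2) = 1` forces `x = y`. -/
def AdmitsStrictlyConvexNorm (Z : Type) [NormedAddCommGroup Z] [NormedSpace ℝ Z] : Prop :=
  ∃ N : Seminorm ℝ Z,
    (∃ c C : ℝ, 0 < c ∧ 0 < C ∧ ∀ x, c * ‖x‖ ≤ N x ∧ N x ≤ C * ‖x‖) ∧
    ∀ x y, N x = 1 → N y = 1 → N ((1 / 2 : ℝ) • (x + y)) = 1 → x = y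

/-! ### A strictly convex renorming from a countable separating family -/

section Renorm

variable (g : ℕ → Lip0 M o) (hg : ∀ n, ‖g n‖ ≤ 1)

lemma abs_le_of (hg : ∀ n, ‖g n‖ ≤ 1) (μ : FreeSpace M o) (n : ℕ) : |μ.1 (g n)| ≤ ‖μ‖ := by
  have h1 := μ.1.le_opNorm (g n)
  rw [Real.norm_eq_abs] at h1
  calc |μ.1 (g n)| ≤ ‖μ.1‖ * ‖g n‖ := h1
    _ ≤ ‖μ.1‖ * 1 := mul_le_mul_of_nonneg_left (hg n) (norm_nonneg _)
    _ = ‖μ‖ := by rw [mul_one]; rfl

lemma term_sq (hg : ∀ n, ‖g n‖ ≤ 1) (μ : FreeSpace M o) (n : ℕ) :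
    ‖(1 / 2 : ℝ) ^ n * μ.1 (g n)‖ ^ (2 : ℝ) ≤ ‖μ‖ ^ 2 * (1 / 4) ^ n := by
  have h := abs_le_of g hg μ n
  rw [Real.rpow_two, norm_mul, mul_pow, Real.norm_eq_abs, Real.norm_eq_abs, sq_abs]
  have e : ((1 / 2 : ℝ) ^ n) ^ 2 = (1 / 4) ^ n := by
    rw [← pow_mul, mul_comm, pow_mul]; norm_num
  rw [e, mul_comm]
  gcongr

lemma memT (hg : ∀ n, ‖g n‖ ≤ 1) (μ : FreeSpace M o) :
    Memℓp (fun n => (1 / 2 : ℝ) ^ n * μ.1 (g n)) 2 := by
  apply memℓp_gen
  have h2 : (2 : ℝ≥0∞).toReal = (2 : ℝ) := by simp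
  rw [h2]
  refine Summable.of_nonneg_of_le (fun n => by positivity) (fun n => term_sq g hg μ n) ?_
  exact (summable_geometric_of_lt_one (by norm_num) (by norm_num)).mul_left _

/-- the operator `μ ↦ (2^{-n} μ(g_n))_n` into `ell_2` -/
noncomputable def T (hg : ∀ n, ‖g n‖ ≤ 1) : FreeSpace M o →ₗ[ℝ] lp (fun _ : ℕ => ℝ) 2 where
  toFun μ := ⟨fun n => (1 / 2 : ℝ) ^ n * μ.1 (g n), memT g hg μ⟩
  map_add' μ ν := by
    ext n
    change (1 / 2 : ℝ) ^ n * (μ.1 (g n) + ν.1 (g n)) =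
      (1 / 2 : ℝ) ^ n * μ.1 (g n) + (1 / 2 : ℝ) ^ n * ν.1 (g n)
    ring
  map_smul' c μ := by
    ext n
    change (1 / 2 : ℝ) ^ n * (c * μ.1 (g n)) = c * ((1 / 2 : ℝ) ^ n * μ.1 (g n))
    ring

lemma T_apply (hg : ∀ n, ‖g n‖ ≤ 1) (μ : FreeSpace M o) (n : ℕ) :
    T g hg μ n = (1 / 2 : ℝ) ^ n * μ.1 (g n) := rfl

lemma norm_T_le (hg : ∀ n, ‖g n‖ ≤ 1) (μ : FreeSpace M o) : ‖T g hg μ‖ ≤ 2 * ‖μ‖ := by
  have h2 : (2 : ℝ≥0∞).toReal = (2 : ℝ) := by simp
  have h := lp.norm_rpow_eq_tsum (p := 2) (by simp) (T g hg μ)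
  rw [h2] at h
  have h3 : ‖T g hg μ‖ ^ (2 : ℝ) ≤ ‖μ‖ ^ 2 * (4 / 3) := by
    rw [h]
    have hs : HasSum (fun n : ℕ => ‖μ‖ ^ 2 * (1 / 4 : ℝ) ^ n) (‖μ‖ ^ 2 * (1 - 1 / 4)⁻¹) :=
      (hasSum_geometric_of_lt_one (by norm_num) (by norm_num)).mul_left _
    have h4 : ∑' n, ‖T g hg μ n‖ ^ (2 : ℝ) ≤ ∑' n : ℕ, ‖μ‖ ^ 2 * (1 / 4 : ℝ) ^ n := by
      refine Summable.tsum_le_tsum (fun n => term_sq g hg μ n) ?_ hs.summable
      exact Summable.of_nonneg_of_le (fun n => by positivity) (fun n => term_sq g hg μ n)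
        hs.summable
    have e : (1 - 1 / 4 : ℝ)⁻¹ = 4 / 3 := by norm_num
    rw [hs.tsum_eq, e] at h4
    exact h4
  rw [Real.rpow_two] at h3
  have h5 : ‖T g hg μ‖ ^ 2 ≤ (2 * ‖μ‖) ^ 2 := by nlinarith [sq_nonneg ‖μ‖]
  exact (abs_le_of_sq_le_sq' h5 (by positivity)).2

lemma norm_smul_F (c : ℝ) (μ : FreeSpace M o) : ‖c • μ‖ = ‖c‖ * ‖μ‖ := by
  have := norm_smul c (μ : Lip0 M o →L[ℝ] ℝ)
  exact this

/-- The renorming `‖μ‖ + ‖T μ‖`. -/
noncomputable def N (hg : ∀ n, ‖g n‖ ≤ 1) : Seminorm ℝ (FreeSpace M o) :=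
  Seminorm.of (fun μ => ‖μ‖ + ‖T g hg μ‖) (fun μ ν => by
    have h1 := norm_add_le μ ν
    have h2 := norm_add_le (T g hg μ) (T g hg ν)
    rw [map_add]
    linarith) (fun c μ => by
    rw [(T g hg).map_smul, norm_smul_F, norm_smul]; ring)

lemma N_apply (hg : ∀ n, ‖g n‖ ≤ 1) (μ : FreeSpace M o) : N g hg μ = ‖μ‖ + ‖T g hg μ‖ := rfl

lemma strict (hg : ∀ n, ‖g n‖ ≤ 1) (hsep : ∀ μ : FreeSpace M o, (∀ n, μ.1 (g n) = 0) → μ = 0)
    (μ ν : FreeSpace M o) (h1 : N g hg μ = 1) (h2 : N g hg ν = 1)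
    (h3 : N g hg ((1 / 2 : ℝ) • (μ + ν)) = 1) : μ = ν := by
  have hinj : ∀ ξ : FreeSpace M o, T g hg ξ = 0 → ξ = 0 := by
    intro ξ hξ
    apply hsep
    intro n
    have := T_apply g hg ξ n
    rw [hξ] at this
    have h0 : (0 : ℝ) = (1 / 2 : ℝ) ^ n * ξ.1 (g n) := this
    have hp : ((1 / 2 : ℝ) ^ n) ≠ 0 := by positivity
    exact (mul_eq_zero.mp h0.symm).resolve_left hp
  have h4 : N g hg (μ + ν) = 2 := by
    have : N g hg ((1 / 2 : ℝ) • (μ + ν)) = ‖(1 / 2 : ℝ)‖ * N g hg (μ + ν) := map_smul_eq_mul _ _ _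
    rw [this, Real.norm_eq_abs] at h3
    rw [abs_of_pos (by norm_num : (0 : ℝ) < 1 / 2)] at h3
    linarith
  rw [N_apply] at h1 h2 h4
  rw [map_add] at h4
  have h5 := norm_add_le μ ν
  have h6 := norm_add_le (T g hg μ) (T g hg ν)
  have h7 : ‖T g hg μ + T g hg ν‖ = ‖T g hg μ‖ + ‖T g hg ν‖ := by linarith
  have h8 : SameRay ℝ (T g hg μ) (T g hg ν) := sameRay_iff_norm_add.mpr h7
  have hμ : T g hg μ ≠ 0 := by
    intro h0
    have := hinj μ h0
    rw [h0, this] at h1
    simp at h1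
  have hν : T g hg ν ≠ 0 := by
    intro h0
    have := hinj ν h0
    rw [h0, this] at h2
    simp at h2
  obtain ⟨r, hr, hrν⟩ := h8.exists_pos_left hμ hν
  have h9 : ν = r • μ := by
    have h0 : r • μ - ν = 0 := by
      apply hsep
      intro n
      change r * μ.1 (g n) - ν.1 (g n) = 0
      have h1 : (r • T g hg μ) n = T g hg ν n := by rw [hrν]
      have h2 : r * ((1 / 2 : ℝ) ^ n * μ.1 (g n)) = (1 / 2 : ℝ) ^ n * ν.1 (g n) := h1
      have hp : ((1 / 2 : ℝ) ^ n) ≠ 0 := by positivity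
      have h3 : (1 / 2 : ℝ) ^ n * (r * μ.1 (g n) - ν.1 (g n)) = 0 := by linarith
      exact (mul_eq_zero.mp h3).resolve_left hp
    exact (sub_eq_zero.mp h0).symm
  have h10 : N g hg ν = r * N g hg μ := by
    rw [h9, map_smul_eq_mul, Real.norm_eq_abs, abs_of_pos hr]
  rw [N_apply, N_apply, h1, h2] at h10
  have : r = 1 := by linarith
  rw [h9, this, one_smul]

end Renorm

/-! ### Finitely many coordinates suffice on `ell_infty` -/

/-- The Banach space `ell_infty` of bounded real sequences. -/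
abbrev Linf := lp (fun _ : ℕ => ℝ) ∞

section Linf

/-- restriction to the first `n` coordinates -/
def proj (n : ℕ) (x : Linf) : Fin n → ℝ := fun i => x i

lemma proj_dist_le (n : ℕ) (x y : Linf) : dist (proj n x) (proj n y) ≤ dist x y := by
  rw [dist_pi_le_iff dist_nonneg]
  intro i
  rw [dist_eq_norm x y, Real.dist_eq]
  exact lp.norm_apply_le_norm (by simp) (x - y) i

/-- for large `n`, `‖P_n (x - y)‖` is close to `‖x - y‖` -/
lemma exists_proj (x y : Linf) (η : ℝ) (hη : 0 < η) :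
    ∃ n0, ∀ n, n0 ≤ n → dist x y - η ≤ dist (proj n x) (proj n y) := by
  by_contra hcon
  push Not at hcon
  have hall : ∀ i : ℕ, ‖(x - y) i‖ ≤ dist x y - η := by
    intro i
    obtain ⟨n, hn, hlt⟩ := hcon (i + 1)
    have := dist_le_pi_dist (proj n x) (proj n y) ⟨i, by omega⟩
    rw [Real.dist_eq] at this
    exact this.trans hlt.le
  have h1 : ‖x - y‖ ≤ dist x y - η := by
    apply lp.norm_le_of_forall_le' _ hall
  rw [dist_eq_norm] at h1
  linarith

/-- parameters of the countable family -/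
abbrev Par := Σ m : ℕ, Σ n : ℕ, (Fin (m + 1) → ℚ) × (Fin (m + 1) → Fin n → ℚ)

/-- the function `x ↦ min_k (a_k + ‖P_n x - q_k‖)` -/
noncomputable def G0 (p : Par) (x : Linf) : ℝ :=
  Finset.univ.inf' Finset.univ_nonempty
    fun k => (p.2.2.1 k : ℝ) + dist (proj p.2.1 x) (fun i => (p.2.2.2 k i : ℝ))

lemma G0_le (p : Par) (x y : Linf) : G0 p x ≤ G0 p y + dist x y := by
  obtain ⟨k, -, hk⟩ := Finset.exists_mem_eq_inf' Finset.univ_nonempty
    fun k => (p.2.2.1 k : ℝ) + dist (proj p.2.1 y) (fun i => (p.2.2.2 k i : ℝ))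
  have h1 : G0 p x ≤ (p.2.2.1 k : ℝ) + dist (proj p.2.1 x) (fun i => (p.2.2.2 k i : ℝ)) :=
    Finset.inf'_le _ (Finset.mem_univ k)
  have h2 : G0 p y = (p.2.2.1 k : ℝ) + dist (proj p.2.1 y) (fun i => (p.2.2.2 k i : ℝ)) := hk
  have h3 := dist_triangle (proj p.2.1 x) (proj p.2.1 y) (fun i => (p.2.2.2 k i : ℝ))
  have h4 := proj_dist_le p.2.1 x y
  linarith

lemma G0_lip (p : Par) (x y : Linf) : |G0 p x - G0 p y| ≤ dist x y := by
  rw [abs_le]
  have h1 := G0_le p x y
  have h2 := G0_le p y x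
  rw [dist_comm y x] at h2
  constructor <;> linarith

/-- the normalised function, an element of `Lip₀(ell_infty)` -/
noncomputable def G (p : Par) : Lip0 Linf 0 :=
  ⟨fun x => G0 p x - G0 p 0, by simp, 1, LipschitzWith.of_dist_le_mul fun x y => by
    rw [Real.dist_eq]
    simpa using G0_lip p x y⟩

lemma G_apply (p : Par) (x : Linf) : G p x = G0 p x - G0 p 0 := rfl

lemma norm_G (p : Par) : ‖G p‖ ≤ 1 := by
  apply norm_le_of _ _ zero_le_one
  intro x y
  rw [G_apply, G_apply, one_mul]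
  simpa using G0_lip p x y

/-- Every norm-one-type Lipschitz function is approximated on finite sets by the family. -/
lemma approx (f : Lip0 Linf 0) (hf : ‖f‖ ≤ 1) (s : Finset Linf) (η : ℝ) (hη : 0 < η) :
    ∃ p : Par, ∀ x ∈ s, |G p x - f x| ≤ η := by
  classical
  -- enumerate `insert 0 s`
  set S := insert (0 : Linf) s with hS
  have hScard : 0 < S.card := Finset.card_pos.mpr ⟨0, Finset.mem_insert_self _ _⟩
  obtain ⟨m, hm⟩ : ∃ m, S.card = m + 1 := ⟨S.card - 1, by omega⟩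
  let en : S ≃ Fin (m + 1) := S.equivFinOfCardEq hm
  let z : Fin (m + 1) → Linf := fun k => (en.symm k).1
  have hz : ∀ x ∈ S, ∃ k, z k = x := fun x hx => ⟨en ⟨x, hx⟩, by simp [z]⟩
  -- choose n
  have hn : ∃ n, ∀ j k, dist (z j) (z k) - η / 8 ≤ dist (proj n (z j)) (proj n (z k)) := by
    choose n0 hn0 using fun (jk : Fin (m + 1) × Fin (m + 1)) =>
      exists_proj (z jk.1) (z jk.2) (η / 8) (by positivity)
    refine ⟨Finset.univ.sup n0, fun j k => hn0 (j, k) _ (Finset.le_sup (Finset.mem_univ (j, k)))⟩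
  obtain ⟨n, hn⟩ := hn
  -- rational approximations
  have ha : ∀ k, ∃ a : ℚ, |(a : ℝ) - f (z k)| ≤ η / 8 := by
    intro k
    obtain ⟨a, ha⟩ := exists_rat_near (f (z k)) (show (0 : ℝ) < η / 8 by positivity)
    exact ⟨a, by rw [abs_sub_comm]; exact ha.le⟩
  choose a ha using ha
  have hq : ∀ k, ∀ i : Fin n, ∃ q : ℚ, |(q : ℝ) - proj n (z k) i| ≤ η / 8 := by
    intro k i
    obtain ⟨q, hq⟩ := exists_rat_near (proj n (z k) i) (show (0 : ℝ) < η / 8 by positivity)
    exact ⟨q, by rw [abs_sub_comm]; exact hq.le⟩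
  choose q hq using hq
  have hqd : ∀ k, dist (proj n (z k)) (fun i => (q k i : ℝ)) ≤ η / 8 := by
    intro k
    rw [dist_pi_le_iff (by positivity)]
    intro i
    rw [Real.dist_eq, abs_sub_comm]
    exact hq k i
  set p : Par := ⟨m, n, a, q⟩ with hp
  have hG0 : ∀ j, |G0 p (z j) - f (z j)| ≤ η / 2 := by
    intro j
    rw [abs_le]
    constructor
    · -- lower bound
      obtain ⟨k, -, hk⟩ := Finset.exists_mem_eq_inf' (Finset.univ_nonempty (α := Fin (m + 1)))
        fun k => (a k : ℝ) + dist (proj n (z j)) (fun i => (q k i : ℝ))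
      have hk' : G0 p (z j) = (a k : ℝ) + dist (proj n (z j)) (fun i => (q k i : ℝ)) := hk
      have h1 := hn j k
      have h2 := dist_triangle (proj n (z j)) (fun i => (q k i : ℝ)) (proj n (z k))
      have h3 := hqd k
      rw [dist_comm] at h3
      have h4 := le_norm f (z j) (z k)
      have h5 : ‖f‖ * dist (z j) (z k) ≤ dist (z j) (z k) := by
        have := mul_le_mul_of_nonneg_right hf (dist_nonneg (x := z j) (y := z k))
        linarith
      have h6 := ha k
      rw [abs_le] at h4 h6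
      linarith [h4.2, h6.1]
    · have h1 : G0 p (z j) ≤ (a j : ℝ) + dist (proj n (z j)) (fun i => (q j i : ℝ)) :=
        Finset.inf'_le _ (Finset.mem_univ j)
      have h3 := hqd j
      have h6 := ha j
      rw [abs_le] at h6
      linarith [h6.2]
  refine ⟨p, fun x hx => ?_⟩
  obtain ⟨j, hj⟩ := hz x (Finset.mem_insert_of_mem hx)
  obtain ⟨j0, hj0⟩ := hz 0 (Finset.mem_insert_self _ _)
  have h1 := hG0 j
  have h2 := hG0 j0
  rw [hj] at h1
  rw [hj0, coe_base, sub_zero] at h2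
  rw [G_apply]
  rw [abs_le] at h1 h2 ⊢
  constructor <;> linarith [h1.1, h1.2, h2.1, h2.2]

/-- a finite combination of evaluations depends on finitely many points -/
lemma span_finite (ν : Lip0 Linf 0 →L[ℝ] ℝ)
    (hν : ν ∈ Submodule.span ℝ (Set.range (delta (0 : Linf)))) :
    ∃ (s : Finset Linf) (C : ℝ), 0 ≤ C ∧ ∀ f h : Lip0 Linf 0, ∀ η : ℝ,
      (∀ x ∈ s, |f x - h x| ≤ η) → |ν f - ν h| ≤ C * η := by
  classical
  induction hν using Submodule.span_induction with
  | mem ν hν =>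
    obtain ⟨x, rfl⟩ := hν
    refine ⟨{x}, 1, zero_le_one, fun f h η hη => ?_⟩
    rw [delta_apply, delta_apply, one_mul]
    exact hη x (Finset.mem_singleton_self x)
  | zero =>
    refine ⟨∅, 0, le_rfl, fun f h η _ => ?_⟩
    simp
  | add ν₁ ν₂ _ _ h1 h2 =>
    obtain ⟨s1, C1, hC1, h1⟩ := h1
    obtain ⟨s2, C2, hC2, h2⟩ := h2
    refine ⟨s1 ∪ s2, C1 + C2, by positivity, fun f h η hη => ?_⟩
    have e1 := h1 f h η fun x hx => hη x (Finset.mem_union_left _ hx)
    have e2 := h2 f h η fun x hx => hη x (Finset.mem_union_right _ hx)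
    have e3 : (ν₁ + ν₂) f - (ν₁ + ν₂) h = (ν₁ f - ν₁ h) + (ν₂ f - ν₂ h) := by
      change (ν₁ f + ν₂ f) - (ν₁ h + ν₂ h) = _
      ring
    rw [e3, add_mul]
    exact (abs_add_le _ _).trans (add_le_add e1 e2)
  | smul c ν _ h1 =>
    obtain ⟨s1, C1, hC1, h1⟩ := h1
    refine ⟨s1, |c| * C1, by positivity, fun f h η hη => ?_⟩
    have e1 := h1 f h η hη
    have e3 : (c • ν) f - (c • ν) h = c * (ν f - ν h) := by
      change c * ν f - c * ν h = _
      ring
    rw [e3, abs_mul, mul_assoc]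
    exact mul_le_mul_of_nonneg_left e1 (abs_nonneg c)

/-- The countable family separates the points of `F(ell_infty)`. -/
lemma separates (μ : FreeSpace Linf 0) (h : ∀ p : Par, μ.1 (G p) = 0) : μ = 0 := by
  apply Subtype.ext
  change μ.1 = 0
  -- it suffices to treat `f` of norm at most one
  have key : ∀ f : Lip0 Linf 0, ‖f‖ ≤ 1 → μ.1 f = 0 := by
    intro f hf
    by_contra hne
    set c := |μ.1 f| with hc
    have hcpos : 0 < c := abs_pos.mpr hne
    have hmem : μ.1 ∈ closure ((Submodule.span ℝ (Set.range (delta (0 : Linf))) :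
        Submodule ℝ (Lip0 Linf 0 →L[ℝ] ℝ)) : Set (Lip0 Linf 0 →L[ℝ] ℝ)) := μ.2
    obtain ⟨ν, hν, hd⟩ := Metric.mem_closure_iff.mp hmem (c / 4) (by positivity)
    obtain ⟨s, C, hC, hs⟩ := span_finite ν hν
    obtain ⟨p, hp⟩ := approx f hf s (c / (4 * (C + 1))) (by positivity)
    have h1 : |ν (G p) - ν f| ≤ C * (c / (4 * (C + 1))) := hs _ _ _ hp
    have h2 : C * (c / (4 * (C + 1))) ≤ c / 4 := by
      rw [mul_div_assoc', div_le_div_iff₀ (by positivity) (by norm_num)]
      nlinarith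
    rw [dist_eq_norm] at hd
    have h3 : |μ.1 (G p) - ν (G p)| ≤ c / 4 := by
      have := (μ.1 - ν).le_opNorm (G p)
      have e : (μ.1 - ν) (G p) = μ.1 (G p) - ν (G p) := rfl
      rw [e, Real.norm_eq_abs] at this
      have h5 := mul_le_mul_of_nonneg_left (norm_G p) (norm_nonneg (μ.1 - ν))
      linarith
    have h4 : |μ.1 f - ν f| ≤ c / 4 := by
      have := (μ.1 - ν).le_opNorm f
      have e : (μ.1 - ν) f = μ.1 f - ν f := rfl
      rw [e, Real.norm_eq_abs] at this
      have h5 := mul_le_mul_of_nonneg_left hf (norm_nonneg (μ.1 - ν))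
      linarith
    rw [h p] at h3
    have h6 : c ≤ 3 * (c / 4) := by
      rw [abs_le] at h1 h3 h4
      rw [hc]
      rcases abs_cases (μ.1 f) with ⟨e1, _⟩ | ⟨e1, _⟩ <;> rw [e1] <;> linarith [h1.1, h1.2, h3.1, h3.2, h4.1, h4.2]
    linarith
  ext f
  by_cases hf0 : ‖f‖ = 0
  · have : f = 0 := norm_eq_zero.mp hf0
    rw [this]; simp
  · have hpos : 0 < ‖f‖ := lt_of_le_of_ne (norm_nonneg f) (Ne.symm hf0)
    have h1 := key (‖f‖⁻¹ • f) (by
      rw [norm_smul, norm_inv, norm_norm, inv_mul_cancel₀ hf0])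
    rw [map_smul] at h1
    have h2 : ‖f‖⁻¹ * μ.1 f = 0 := h1
    exact (mul_eq_zero.mp h2).resolve_left (inv_ne_zero hf0)

end Linf

/-- **`F(ell_infty)` admits an equivalent strictly convex norm**, unbundled form. -/
theorem aux : AdmitsStrictlyConvexNorm (FreeSpace Linf 0) := by
  obtain ⟨φ, hφ⟩ := exists_surjective_nat Par
  refine ⟨N (fun n => G (φ n)) (fun n => norm_G _), ⟨1, 3, one_pos, by norm_num, fun μ => ?_⟩,
    fun μ ν => strict _ _ ?_ μ ν⟩
  · rw [N_apply]
    have h1 := norm_T_le (fun n => G (φ n)) (fun n => norm_G _) μ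
    have h2 := norm_nonneg (T (fun n => G (φ n)) (fun n => norm_G _) μ)
    constructor <;> linarith
  · intro ξ hξ
    apply separates
    intro p
    obtain ⟨n, rfl⟩ := hφ p
    exact hξ n

/-! ### The statement, over short named types -/

section Statement

/-- The dual of `Lip₀(M)`, with the operator norm. -/
def LipDual (M : Type) [MetricSpace M] (o : M) : Type := Lip0 M o →L[ℝ] ℝ

noncomputable instance (M : Type) [MetricSpace M] (o : M) : NormedAddCommGroup (LipDual M o) :=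
  (ContinuousLinearMap.toNormedAddCommGroup : NormedAddCommGroup (Lip0 M o →L[ℝ] ℝ))

noncomputable instance (M : Type) [MetricSpace M] (o : M) : NormedSpace ℝ (LipDual M o) :=
  (ContinuousLinearMap.toNormedSpace : NormedSpace ℝ (Lip0 M o →L[ℝ] ℝ))

/-- `δ(x)`: evaluation at `x`, an element of the dual of `Lip₀(M)`. -/
noncomputable def evalAt {M : Type} [MetricSpace M] (o : M) (x : M) : LipDual M o := delta o x

/-- The norm-closed linear span of `δ(M)` in the dual of `Lip₀(M)`. -/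
noncomputable def closedSpan (M : Type) [MetricSpace M] (o : M) : Submodule ℝ (LipDual M o) :=
  (Submodule.span ℝ (Set.range (evalAt o))).topologicalClosure

/-- The Lipschitz-free space `F(M)`. -/
def LipFree (M : Type) [MetricSpace M] (o : M) : Type := closedSpan M o

noncomputable instance (M : Type) [MetricSpace M] (o : M) : NormedAddCommGroup (LipFree M o) :=
  Submodule.normedAddCommGroup (closedSpan M o)

noncomputable instance (M : Type) [MetricSpace M] (o : M) : NormedSpace ℝ (LipFree M o) :=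
  Submodule.normedSpace (closedSpan M o)

/-- The Banach space `ell_infty` of bounded real sequences with the sup norm. -/
def EllInfty : Type := lp (fun _ : ℕ => ℝ) ∞

noncomputable instance : NormedAddCommGroup EllInfty :=
  (lp.normedAddCommGroup : NormedAddCommGroup (lp (fun _ : ℕ => ℝ) ∞))

end Statement

/-- **`F(ell_infty)` admits an equivalent strictly convex norm.** -/
theorem result : AdmitsStrictlyConvexNorm (LipFree EllInfty 0) := aux

end Pool.Agent.Results.MP_c2fecd_an.StrictlyConvex
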